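import Pool.Agent.Helper99.WP.GoalsK

/-!
# WP, packet HRN: the Harnack inequality from the growth lemma
-/

open Finset

namespace Pool.Agent.Helper38.WP

open Pool.Agent.Helper99.WP Pool.Agent.Helper99.ERW

/-- The maximum norm. -/
def nrm {d : ℕ} (v : Site d) : ℕ := Finset.univ.sup (fun l => (v l).natAbs)

theorem nrm_le {d : ℕ} (v : Site d) (r : ℕ) : nrm v ≤ r ↔ ∀ l, |v l| ≤ (r : ℤ) := by
  unfold nrm
  rw [Finset.sup_le_iff]
  constructor
  · intro h l
    have := h l (Finset.mem_univ _)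
    rw [Int.abs_eq_natAbs]
    exact_mod_cast this
  · intro h l _
    have := h l
    rw [Int.abs_eq_natAbs] at this
    exact_mod_cast this

theorem nrm_tri {d : ℕ} (x y z : Site d) : nrm (x - z) ≤ nrm (x - y) + nrm (y - z) := by
  unfold nrm
  apply Finset.sup_le
  intro l _
  have h1 : ((x - y) l).natAbs ≤ Finset.univ.sup (fun l => ((x - y) l).natAbs) :=
    Finset.le_sup (f := fun l => ((x - y) l).natAbs) (Finset.mem_univ l)
  have h2 : ((y - z) l).natAbs ≤ Finset.univ.sup (fun l => ((y - z) l).natAbs) :=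
    Finset.le_sup (f := fun l => ((y - z) l).natAbs) (Finset.mem_univ l)
  have h3 : ((x - z) l).natAbs ≤ ((x - y) l).natAbs + ((y - z) l).natAbs := by
    simp only [Pi.sub_apply]
    omega
  omega

theorem mem_Q (hQQQ : QQQ_stmt) {d : ℕ} (r : ℕ) (y z : Site d) : z ∈ Q r y ↔ nrm (z - y) ≤ r := by
  rw [(hQQQ d).1, nrm_le]
  rfl

theorem lap_const_sub {d : ℕ} (p : Site d → Fin d → ℝ) (u : Site d → ℝ) (M : ℝ) (x : Site d) :
    lap p (fun z => M - u z) x = - lap p u x := by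
  unfold lap
  rw [← Finset.sum_neg_distrib]
  apply Finset.sum_congr rfl
  intro l _
  ring

theorem lap_add_const {d : ℕ} (p : Site d → Fin d → ℝ) (u : Site d → ℝ) (M : ℝ) (x : Site d) :
    lap p (fun z => u z + M) x = lap p u x := by
  unfold lap
  apply Finset.sum_congr rfl
  intro l _
  ring

/-- The growth lemma at a maximum point of the weighted function. -/
theorem claim (hQQQ : QQQ_stmt) {d : ℕ} (κ : ℝ) (K0 : ℕ) (c γ : ℝ)
    (hc : 0 < c) (hγ : 0 < γ) (hK0 : 1 ≤ K0)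
    (hH : ∀ p : Site d → Fin d → ℝ, Ell κ p → ∀ (r : ℕ) (y : Site d) (u : Site d → ℝ)
      (A : Finset (Site d)) (t : ℝ), 0 ≤ t → A ⊆ Q r y →
      (∀ z ∈ Q (K0 * (r + 1)) y, lap p u z ≤ 0) →
      (∀ z ∈ Q (K0 * (r + 1) + 1) y, 0 ≤ u z) → (∀ z ∈ A, t ≤ u z) →
      ∀ z ∈ Q r y, c * ((A.card : ℝ) / (Q r y).card) ^ γ * t ≤ u z)
    (θ η : ℝ) (hθ : θ = c * (1 / 2 : ℝ) ^ γ / 2) (hη0 : 0 < η) (hη1 : η < 1)
    (p : Site d → Fin d → ℝ) (hp : Ell κ p) (w : Site d) (u : Site d → ℝ) (t δ : ℝ) (ht : 0 < t)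
    (hut : u w = t) (hδ : 0 < δ)
    (hharm : ∀ m : ℕ, (m : ℝ) ≤ η * δ → ∀ z ∈ Q m w, lap p u z = 0)
    (hbd : ∀ m : ℕ, (m : ℝ) ≤ η * δ → ∀ z ∈ Q m w, u z ≤ (1 + θ / 2) * t)
    (N : Finset (Site d)) (hN : ∀ m : ℕ, (m : ℝ) ≤ η * δ → ∀ z ∈ Q m w, t / 2 ≤ u z → z ∈ N) :
    (η / (4 * (K0 + 1))) ^ d / 2 * δ ^ d ≤ (N.card : ℝ) := by
  have hK0' : (1 : ℝ) ≤ K0 := by exact_mod_cast hK0
  have hhalf : (0 : ℝ) < (1 / 2 : ℝ) ^ γ := Real.rpow_pos_of_pos (by norm_num) _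
  have hθ0 : 0 < θ := by
    rw [hθ]
    positivity
  have hηδ : 0 < η * δ := mul_pos hη0 hδ
  by_cases hcase : η * δ < K0 + 1
  · have hw : w ∈ N := by
      apply hN 0 (by simpa using hηδ.le) w
      · rw [mem_Q hQQQ, sub_self]
        unfold nrm
        simp
      · rw [hut]
        linarith
    have h1 : (1 : ℝ) ≤ N.card := by
      exact_mod_cast Finset.card_pos.mpr ⟨w, hw⟩
    refine le_trans ?_ h1
    have h2 : (η / (4 * (K0 + 1))) ^ d * δ ^ d ≤ 1 := by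
      rw [← mul_pow]
      apply pow_le_one₀
      · positivity
      · have h3 : η / (4 * (K0 + 1)) * δ = (η * δ) / (4 * (K0 + 1)) := by ring
        rw [h3, div_le_one (by positivity)]
        linarith
    have h4 : (η / (4 * (K0 + 1))) ^ d / 2 * δ ^ d = (η / (4 * (K0 + 1))) ^ d * δ ^ d / 2 := by ring
    rw [h4]
    linarith
  · rw [not_lt] at hcase
    -- the radius
    obtain ⟨r, hr1, hr2⟩ : ∃ r : ℕ, (K0 : ℝ) * (r + 1) + 1 ≤ η * δ ∧ η * δ / (4 * K0) ≤ r + 1 := by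
      have h1 : (1 : ℝ) ≤ (η * δ - 1) / K0 := by
        rw [le_div_iff₀ (by linarith)]
        linarith
      have h2 : 1 ≤ ⌊(η * δ - 1) / K0⌋₊ := Nat.le_floor (by exact_mod_cast h1)
      refine ⟨⌊(η * δ - 1) / K0⌋₊ - 1, ?_, ?_⟩
      · have h3 : ((⌊(η * δ - 1) / K0⌋₊ - 1 : ℕ) : ℝ) + 1 = (⌊(η * δ - 1) / K0⌋₊ : ℝ) := by
          have : ⌊(η * δ - 1) / K0⌋₊ - 1 + 1 = ⌊(η * δ - 1) / K0⌋₊ := by omega
          exact_mod_cast this
        rw [h3]
        have h4 : (⌊(η * δ - 1) / K0⌋₊ : ℝ) ≤ (η * δ - 1) / K0 := Nat.floor_le (by linarith)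
        rw [le_div_iff₀ (by linarith)] at h4
        linarith
      · have h3 : ((⌊(η * δ - 1) / K0⌋₊ - 1 : ℕ) : ℝ) + 1 = (⌊(η * δ - 1) / K0⌋₊ : ℝ) := by
          have : ⌊(η * δ - 1) / K0⌋₊ - 1 + 1 = ⌊(η * δ - 1) / K0⌋₊ := by omega
          exact_mod_cast this
        rw [h3]
        have h4 : (η * δ - 1) / K0 < (⌊(η * δ - 1) / K0⌋₊ : ℝ) + 1 := Nat.lt_floor_add_one _
        have h5 : (1 : ℝ) ≤ (⌊(η * δ - 1) / K0⌋₊ : ℝ) := by exact_mod_cast h2
        have h6 : (η * δ - 1) / K0 ≤ 2 * (⌊(η * δ - 1) / K0⌋₊ : ℝ) := by linarith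
        have h7 : η * δ / (4 * K0) ≤ (η * δ - 1) / K0 / 2 := by
          rw [div_div, div_le_div_iff₀ (by positivity) (by positivity)]
          nlinarith
        linarith
    set A : Finset (Site d) := (Q r w).filter (fun z => u z < t / 2) with hA
    have hmle : (r : ℝ) ≤ η * δ := by
      have : (r : ℝ) + 1 ≤ K0 * (r + 1) := by nlinarith [Nat.cast_nonneg (α := ℝ) r]
      linarith
    have hcardQ : ((Q r w).card : ℝ) = (2 * (r : ℝ) + 1) ^ d := by
      rw [(hQQQ d).2.1]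
      push_cast
      ring
    have hQpos : (0 : ℝ) < (Q r w).card := by
      rw [hcardQ]
      positivity
    have hAcard : (A.card : ℝ) < (Q r w).card / 2 := by
      by_contra hcon
      rw [not_lt] at hcon
      have h1 : (1 / 2 : ℝ) ≤ (A.card : ℝ) / (Q r w).card := by
        rw [le_div_iff₀ hQpos]
        linarith
      have h2 := hH p hp r w (fun z => (1 + θ / 2) * t - u z) A (t / 2) (by linarith)
        (Finset.filter_subset _ _)
        (fun z hz => by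
          rw [lap_const_sub]
          have := hharm (K0 * (r + 1)) (by push_cast; linarith) z hz
          rw [this]
          simp)
        (fun z hz => by
          have := hbd (K0 * (r + 1) + 1) (by push_cast; linarith) z hz
          simpa using this)
        (fun z hz => by
          have h3 : u z < t / 2 := (Finset.mem_filter.mp hz).2
          have h4 : 0 ≤ θ * t := by positivity
          show t / 2 ≤ (1 + θ / 2) * t - u z
          nlinarith)
        w (by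
          rw [mem_Q hQQQ, sub_self]
          unfold nrm
          simp)
      have h3 : (1 / 2 : ℝ) ^ γ ≤ ((A.card : ℝ) / (Q r w).card) ^ γ :=
        Real.rpow_le_rpow (by norm_num) h1 hγ.le
      have h4 : c * (1 / 2 : ℝ) ^ γ * (t / 2) ≤ c * ((A.card : ℝ) / (Q r w).card) ^ γ * (t / 2) := by
        apply mul_le_mul_of_nonneg_right _ (by linarith)
        exact mul_le_mul_of_nonneg_left h3 hc.le
      have h5 : c * (1 / 2 : ℝ) ^ γ * (t / 2) = θ * t := by
        rw [hθ]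
        ring
      have h6 : (1 + θ / 2) * t - u w = θ / 2 * t := by
        rw [hut]
        ring
      rw [h6] at h2
      have h7 : 0 < θ * t := mul_pos hθ0 ht
      linarith
    have hcompl : (A.card : ℝ) + ((Q r w).filter (fun z => ¬ u z < t / 2)).card =
        (Q r w).card := by
      exact_mod_cast Finset.card_filter_add_card_filter_not (s := Q r w) (fun z => u z < t / 2)
    have hsub : (Q r w).filter (fun z => ¬ u z < t / 2) ⊆ N := by
      intro z hz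
      rw [Finset.mem_filter] at hz
      exact hN r hmle z hz.1 (not_lt.mp hz.2)
    have hsub' : (((Q r w).filter (fun z => ¬ u z < t / 2)).card : ℝ) ≤ N.card := by
      exact_mod_cast Finset.card_le_card hsub
    have h1 : ((Q r w).card : ℝ) / 2 ≤ N.card := by linarith
    refine le_trans ?_ h1
    rw [hcardQ]
    have h2 : (η / (4 * (K0 + 1))) ^ d * δ ^ d ≤ (2 * (r : ℝ) + 1) ^ d := by
      rw [← mul_pow]
      apply pow_le_pow_left₀ (by positivity)
      have h3 : η / (4 * (K0 + 1)) * δ ≤ η * δ / (4 * K0) := by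
        have : η / (4 * (K0 + 1)) * δ = η * δ / (4 * (K0 + 1)) := by ring
        rw [this]
        apply div_le_div_of_nonneg_left hηδ.le (by positivity) (by linarith)
      linarith [Nat.cast_nonneg (α := ℝ) r]
    have h4 : (η / (4 * (K0 + 1))) ^ d / 2 * δ ^ d = (η / (4 * (K0 + 1))) ^ d * δ ^ d / 2 := by ring
    rw [h4]
    linarith

theorem core (hQQQ : QQQ_stmt) {d : ℕ} (hd : 1 ≤ d) (κ : ℝ) (K0 : ℕ) (c γ : ℝ)
    (hc : 0 < c) (hγ : 0 < γ) (hK0 : 1 ≤ K0)
    (hH : ∀ p : Site d → Fin d → ℝ, Ell κ p → ∀ (r : ℕ) (y : Site d) (u : Site d → ℝ)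
      (A : Finset (Site d)) (t : ℝ), 0 ≤ t → A ⊆ Q r y →
      (∀ z ∈ Q (K0 * (r + 1)) y, lap p u z ≤ 0) →
      (∀ z ∈ Q (K0 * (r + 1) + 1) y, 0 ≤ u z) → (∀ z ∈ A, t ≤ u z) →
      ∀ z ∈ Q r y, c * ((A.card : ℝ) / (Q r y).card) ^ γ * t ≤ u z) :
    ∃ C : ℝ, 1 ≤ C ∧ ∀ p : Site d → Fin d → ℝ, Ell κ p → ∀ (R : ℕ) (y : Site d) (u : Site d → ℝ),
      (∀ z ∈ Q (2 * K0 * (R + 1)) y, lap p u z = 0) →
      (∀ z ∈ Q (2 * K0 * (R + 1) + 1) y, 0 < u z) →
      ∀ z ∈ Q R y, ∀ z' ∈ Q R y, u z ≤ C * u z' := by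
  have hK0' : (1 : ℝ) ≤ K0 := by exact_mod_cast hK0
  have hd' : (1 : ℝ) ≤ d := by exact_mod_cast hd
  obtain ⟨θ, hθ⟩ : ∃ θ : ℝ, θ = c * (1 / 2 : ℝ) ^ γ / 2 := ⟨_, rfl⟩
  have hhalf : (0 : ℝ) < (1 / 2 : ℝ) ^ γ := Real.rpow_pos_of_pos (by norm_num) _
  have hθ0 : 0 < θ := by
    rw [hθ]
    positivity
  obtain ⟨β, hβ⟩ : ∃ β : ℝ, β = d * γ := ⟨_, rfl⟩
  have hβ0 : 0 < β := by
    rw [hβ]
    positivity
  obtain ⟨ξ, hξ⟩ : ∃ ξ : ℝ, ξ = (1 + θ / 2) ^ (-(1 / β)) := ⟨_, rfl⟩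
  have hξ0 : 0 < ξ := by
    rw [hξ]
    exact Real.rpow_pos_of_pos (by linarith) _
  have hξ1 : ξ < 1 := by
    rw [hξ]
    apply Real.rpow_lt_one_of_one_lt_of_neg (by linarith)
    have : 0 < 1 / β := by positivity
    linarith
  have hξβ : ξ ^ β * (1 + θ / 2) = 1 := by
    rw [hξ, ← Real.rpow_mul (by linarith)]
    have h1 : -(1 / β) * β = -1 := by
      field_simp
    rw [h1, Real.rpow_neg_one]
    apply inv_mul_cancel₀
    linarith
  obtain ⟨c2, hc2⟩ : ∃ c2 : ℝ, c2 = ((1 - ξ) / (4 * (K0 + 1))) ^ d / 2 := ⟨_, rfl⟩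
  have hc20 : 0 < c2 := by
    rw [hc2]
    have : 0 < 1 - ξ := by linarith
    positivity
  obtain ⟨C, hC⟩ : ∃ C : ℝ, C = 2 / c * (4 ^ β / c2 ^ γ) := ⟨_, rfl⟩
  refine ⟨max 1 C, le_max_left _ _, ?_⟩
  intro p hp R y u hharm hpos z hz z' hz'
  -- geometry
  have hreg : ∀ m : ℕ, m ≤ 2 * R + 1 → ∀ x ∈ Q m y, lap p u x = 0 ∧ 0 < u x := by
    intro m hm x hx
    rw [mem_Q hQQQ] at hx
    have h1 : 2 * (R + 1) ≤ 2 * K0 * (R + 1) := by
      have : 1 * (R + 1) ≤ K0 * (R + 1) := Nat.mul_le_mul_right _ hK0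
      nlinarith
    constructor
    · apply hharm
      rw [mem_Q hQQQ]
      omega
    · apply hpos
      rw [mem_Q hQQQ]
      omega
  obtain ⟨δ, hδ⟩ : ∃ δ : Site d → ℝ, δ = fun x => 2 * ((R : ℝ) + 1) - (nrm (x - y) : ℝ) := ⟨_, rfl⟩
  have hδ1 : ∀ x ∈ Q (2 * R + 1) y, 1 ≤ δ x := by
    intro x hx
    rw [mem_Q hQQQ] at hx
    rw [hδ]
    have : (nrm (x - y) : ℝ) ≤ 2 * R + 1 := by exact_mod_cast hx
    simp only
    linarith
  have hyin : y ∈ Q (2 * R + 1) y := by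
    rw [mem_Q hQQQ, sub_self]
    unfold nrm
    simp
  obtain ⟨w, hw, hmax⟩ := Finset.exists_max_image (Q (2 * R + 1) y) (fun x => u x * δ x ^ β)
    ⟨y, hyin⟩
  obtain ⟨t, ht⟩ : ∃ t : ℝ, u w = t := ⟨_, rfl⟩
  have ht0 : 0 < t := by
    rw [← ht]
    exact (hreg _ le_rfl w hw).2
  have hδw : 1 ≤ δ w := hδ1 w hw
  have hin : ∀ m : ℕ, (m : ℝ) ≤ (1 - ξ) * δ w → ∀ x ∈ Q m w,
      x ∈ Q (2 * R + 1) y ∧ ξ * δ w ≤ δ x := by
    intro m hm x hx
    rw [mem_Q hQQQ] at hx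
    have h1 : (nrm (x - y) : ℝ) ≤ m + nrm (w - y) := by
      have := nrm_tri x w y
      have h2 : nrm (x - y) ≤ m + nrm (w - y) := by omega
      exact_mod_cast h2
    have h2 : ξ * δ w ≤ δ x := by
      have h3 : δ w - m ≤ δ x := by
        rw [hδ]
        simp only
        linarith
      linarith
    refine ⟨?_, h2⟩
    rw [mem_Q hQQQ]
    have h3 : 0 < δ x := lt_of_lt_of_le (by positivity) h2
    have h4 : (nrm (x - y) : ℝ) < 2 * (R + 1) := by
      rw [hδ] at h3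
      simp only at h3
      linarith
    have h5 : nrm (x - y) < 2 * (R + 1) := by exact_mod_cast h4
    omega
  set N : Finset (Site d) := (Q (2 * R + 1) y).filter (fun x => t / 2 ≤ u x) with hNdef
  have hclaim := claim hQQQ κ K0 c γ hc hγ hK0 hH θ (1 - ξ) hθ (by linarith) (by linarith) p hp w u
    t (δ w) ht0 ht (by linarith)
    (fun m hm x hx => (hreg _ le_rfl x (hin m hm x hx).1).1)
    (fun m hm x hx => by
      obtain ⟨h1, h2⟩ := hin m hm x hx
      have h3 : u x * δ x ^ β ≤ t * δ w ^ β := by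
        have := hmax x h1
        rw [ht] at this
        exact this
      have h4 : (ξ * δ w) ^ β ≤ δ x ^ β :=
        Real.rpow_le_rpow (by positivity) h2 hβ0.le
      have h5 : u x * (ξ * δ w) ^ β ≤ t * δ w ^ β :=
        (mul_le_mul_of_nonneg_left h4 (hreg _ le_rfl x h1).2.le).trans h3
      rw [Real.mul_rpow hξ0.le (by linarith)] at h5
      have h6 : 0 < δ w ^ β := Real.rpow_pos_of_pos (by linarith) _
      have h7 : u x * ξ ^ β ≤ t := by
        have h8 : u x * ξ ^ β * δ w ^ β ≤ t * δ w ^ β := by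
          calc u x * ξ ^ β * δ w ^ β = u x * (ξ ^ β * δ w ^ β) := by ring
            _ ≤ _ := h5
        exact le_of_mul_le_mul_right h8 h6
      calc u x = u x * (ξ ^ β * (1 + θ / 2)) := by rw [hξβ, mul_one]
        _ = (1 + θ / 2) * (u x * ξ ^ β) := by ring
        _ ≤ (1 + θ / 2) * t := mul_le_mul_of_nonneg_left h7 (by linarith))
    N
    (fun m hm x hx h => Finset.mem_filter.mpr ⟨(hin m hm x hx).1, h⟩)
  rw [← hc2] at hclaim
  -- HIT on the large cube
  have hz'in : z' ∈ Q (2 * R + 1) y := by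
    rw [mem_Q hQQQ] at hz' ⊢
    omega
  have heq : K0 * (2 * R + 1 + 1) = 2 * K0 * (R + 1) := by ring
  have hit := hH p hp (2 * R + 1) y u N (t / 2) (by linarith) (Finset.filter_subset _ _)
    (fun x hx => (hharm x (by rw [← heq]; exact hx)).le)
    (fun x hx => (hpos x (by rw [← heq]; exact hx)).le)
    (fun x hx => (Finset.mem_filter.mp hx).2) z' hz'in
  have hcardQ : ((Q (2 * R + 1) y).card : ℝ) = (4 * (R : ℝ) + 3) ^ d := by
    rw [(hQQQ d).2.1]
    push_cast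
    ring
  have hR0 : (0 : ℝ) ≤ R := Nat.cast_nonneg _
  have hQpos : (0 : ℝ) < (Q (2 * R + 1) y).card := by
    rw [hcardQ]
    positivity
  have hratio : c2 * (δ w / (4 * (R + 1))) ^ d ≤ (N.card : ℝ) / (Q (2 * R + 1) y).card := by
    rw [le_div_iff₀ hQpos, hcardQ, div_pow]
    have h1 : (4 * (R : ℝ) + 3) ^ d ≤ (4 * (R + 1)) ^ d :=
      pow_le_pow_left₀ (by positivity) (by linarith) _
    have h2 : (0 : ℝ) < (4 * ((R : ℝ) + 1)) ^ d := by positivity
    calc c2 * (δ w ^ d / (4 * ((R : ℝ) + 1)) ^ d) * (4 * (R : ℝ) + 3) ^ d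
        ≤ c2 * (δ w ^ d / (4 * ((R : ℝ) + 1)) ^ d) * (4 * ((R : ℝ) + 1)) ^ d := by
          apply mul_le_mul_of_nonneg_left h1
          have : 0 ≤ δ w ^ d := by positivity
          positivity
      _ = c2 * δ w ^ d := by
          field_simp
      _ ≤ _ := hclaim
  have hpow : (c2 * (δ w / (4 * (R + 1))) ^ d) ^ γ = c2 ^ γ * (δ w ^ β / (4 * (R + 1)) ^ β) := by
    rw [Real.mul_rpow hc20.le (by positivity), ← Real.rpow_natCast, ← Real.rpow_mul (by positivity),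
      ← hβ, Real.div_rpow (by linarith) (by positivity)]
  have hkey : c * (c2 ^ γ * (δ w ^ β / (4 * (R + 1)) ^ β)) * (t / 2) ≤ u z' := by
    refine le_trans ?_ hit
    rw [← hpow]
    apply mul_le_mul_of_nonneg_right _ (by linarith)
    apply mul_le_mul_of_nonneg_left _ hc.le
    exact Real.rpow_le_rpow (by positivity) hratio hγ.le
  -- conclusion
  have hzin : z ∈ Q (2 * R + 1) y := by
    rw [mem_Q hQQQ] at hz ⊢
    omega
  have hz1 : u z * δ z ^ β ≤ t * δ w ^ β := by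
    have := hmax z hzin
    rw [ht] at this
    exact this
  have hz2 : ((R : ℝ) + 1) ^ β ≤ δ z ^ β := by
    apply Real.rpow_le_rpow (by positivity) _ hβ0.le
    rw [mem_Q hQQQ] at hz
    have h1 : (nrm (z - y) : ℝ) ≤ R := by exact_mod_cast hz
    rw [hδ]
    simp only
    linarith
  have hz3 : u z * ((R : ℝ) + 1) ^ β ≤ t * δ w ^ β :=
    (mul_le_mul_of_nonneg_left hz2 (hreg _ le_rfl z hzin).2.le).trans hz1
  have hRβ : 0 < ((R : ℝ) + 1) ^ β := Real.rpow_pos_of_pos (by positivity) _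
  have h4β : (0 : ℝ) < 4 ^ β := Real.rpow_pos_of_pos (by norm_num) _
  have hc2γ : 0 < c2 ^ γ := Real.rpow_pos_of_pos hc20 _
  have hmulr : (4 * ((R : ℝ) + 1)) ^ β = 4 ^ β * ((R : ℝ) + 1) ^ β :=
    Real.mul_rpow (by norm_num) (by positivity)
  rw [hmulr] at hkey
  have hfin : t * δ w ^ β ≤ C * u z' * ((R : ℝ) + 1) ^ β := by
    have h1 : c * (c2 ^ γ * (δ w ^ β / (4 ^ β * ((R : ℝ) + 1) ^ β))) * (t / 2) =
        (t * δ w ^ β) * (c * c2 ^ γ / (2 * (4 ^ β * ((R : ℝ) + 1) ^ β))) := by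
      field_simp
    rw [h1] at hkey
    have h2 : C * u z' * ((R : ℝ) + 1) ^ β =
        u z' * (2 * (4 ^ β * ((R : ℝ) + 1) ^ β) / (c * c2 ^ γ)) := by
      rw [hC]
      field_simp
    rw [h2]
    have h3 : (0 : ℝ) < 2 * (4 ^ β * ((R : ℝ) + 1) ^ β) / (c * c2 ^ γ) := by positivity
    calc t * δ w ^ β = (t * δ w ^ β) * (c * c2 ^ γ / (2 * (4 ^ β * ((R : ℝ) + 1) ^ β))) *
          (2 * (4 ^ β * ((R : ℝ) + 1) ^ β) / (c * c2 ^ γ)) := by
            field_simp
      _ ≤ _ := mul_le_mul_of_nonneg_right hkey h3.le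
  have hfin2 : u z ≤ C * u z' := le_of_mul_le_mul_right (hz3.trans hfin) hRβ
  refine hfin2.trans ?_
  apply mul_le_mul_of_nonneg_right (le_max_right _ _)
  exact (hreg _ le_rfl z' hz'in).2.le

theorem HRN (hQQQ : QQQ_stmt) (hHIT : HIT_stmt) : HRN_stmt := by
  intro d κ hκ
  obtain ⟨K0, c, γ, hc, hγ, hK0, hH⟩ := hHIT d κ hκ
  rcases Nat.eq_zero_or_pos d with hd | hd
  · subst hd
    refine ⟨1, 1, le_rfl, le_rfl, ?_⟩
    intro p hp
    exfalso
    have := (hp 0).2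
    simp at this
  · obtain ⟨C, hC1, hC⟩ := core hQQQ hd κ K0 c γ hc hγ hK0 hH
    refine ⟨2 * K0, C, by omega, hC1, ?_⟩
    intro p hp R y u hharm hpos z hz z' hz'
    have key : ∀ ε : ℝ, 0 < ε → u z ≤ C * u z' + (C - 1) * ε := by
      intro ε hε
      have h := hC p hp R y (fun x => u x + ε)
        (fun x hx => by rw [lap_add_const]; exact hharm x hx)
        (fun x hx => by
          have := hpos x hx
          linarith) z hz z' hz'
      linarith
    by_contra hcon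
    rw [not_le] at hcon
    have hgap : 0 < u z - C * u z' := by linarith
    have h1 := key ((u z - C * u z') / (2 * C)) (by positivity)
    have h2 : (C - 1) * ((u z - C * u z') / (2 * C)) ≤ (u z - C * u z') / 2 := by
      have h3 : (C - 1) * ((u z - C * u z') / (2 * C)) =
          ((C - 1) / C) * ((u z - C * u z') / 2) := by
        field_simp
      rw [h3]
      have h4 : (C - 1) / C ≤ 1 := by
        rw [div_le_one (by linarith)]
        linarith
      have h5 : 0 ≤ (u z - C * u z') / 2 := by linarith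
      nlinarith
    linarith

end Pool.Agent.Helper38.WP
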