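import Pool.Agent.Helper99.WP.GoalsE

/-!
# WP, packet STI: independent and identically distributed stacks give a stationary law
-/

open MeasureTheory ProbabilityTheory

namespace Pool.Agent.Helper38.WP

open Pool.Agent.Helper99.WP Pool.Agent.Helper99.ERW

theorem STI : STI_stmt := by
  intro d P _ hP x
  obtain ⟨hind, hid⟩ := hP
  have hm : ∀ z : Site d, Measurable (fun ω : Env d => ω z) := fun z => measurable_pi_apply z
  have hm' : ∀ z : Site d, Measurable (fun ω : Env d => ω (z + x)) := fun z =>
    measurable_pi_apply (z + x)
  haveI hprob : IsProbabilityMeasure (P.map (fun ω : Env d => ω 0)) :=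
    Measure.isProbabilityMeasure_map (hm 0).aemeasurable
  have h1 : HasLaw (fun (ω : Env d) (z : Site d) => ω z)
      (Measure.infinitePi (fun _ : Site d => P.map (fun ω : Env d => ω 0))) P :=
    iIndepFun.hasLaw_infinitePi (X := fun (z : Site d) (ω : Env d) => ω z)
      (μ := fun _ : Site d => P.map (fun ω : Env d => ω 0))
      (fun z => ⟨(hm z).aemeasurable, hid z⟩) hind (measurable_pi_iff.2 hm).aemeasurable
  have hinj : Function.Injective (fun z : Site d => z + x) := add_left_injective x
  have hind' : iIndepFun (fun (z : Site d) (ω : Env d) => ω (z + x)) P :=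
    hind.precomp hinj
  have h2 : HasLaw (fun (ω : Env d) (z : Site d) => ω (z + x))
      (Measure.infinitePi (fun _ : Site d => P.map (fun ω : Env d => ω 0))) P :=
    iIndepFun.hasLaw_infinitePi (X := fun (z : Site d) (ω : Env d) => ω (z + x))
      (μ := fun _ : Site d => P.map (fun ω : Env d => ω 0))
      (fun z => ⟨(hm' z).aemeasurable, hid (z + x)⟩) hind'
      (measurable_pi_iff.2 hm').aemeasurable
  have h3 : P.map (fun (ω : Env d) (z : Site d) => ω z) = P := Measure.map_id
  calc P.map (shift x) = P.map (fun (ω : Env d) (z : Site d) => ω (z + x)) := rfl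
    _ = Measure.infinitePi (fun _ : Site d => P.map (fun ω : Env d => ω 0)) := h2.map_eq
    _ = P.map (fun (ω : Env d) (z : Site d) => ω z) := h1.map_eq.symm
    _ = P := h3

end Pool.Agent.Helper38.WP
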